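import Mathlib
import Pool.Agent.Y272.TY.Stm

set_option autoImplicit false

/-!
Task LOG of project Y272-TY (helper87): analytic logarithms of the functions `BB d β n`.
-/

open Complex Filter Topology Metric Set MeasureTheory Asymptotics

namespace Pool.Agent.Y87.TY

open Pool.Agent.H712R2 Pool.Agent.H713R2 Pool.Agent.Y272.TY

/-- holomorphic logarithm on a ball (as in Pool.Agent.H712R2.Par) -/
theorem exists_log_ball {g : ℂ → ℂ} {c : ℂ} {r : ℝ} (hr : 0 < r)
    (hg : DifferentiableOn ℂ g (ball c r)) (h0 : ∀ z ∈ ball c r, g z ≠ 0)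
    (l₀ : ℂ) (hl₀ : Complex.exp l₀ = g c) :
    ∃ ℓ : ℂ → ℂ, DifferentiableOn ℂ ℓ (ball c r) ∧ ℓ c = l₀ ∧
      ∀ z ∈ ball c r, Complex.exp (ℓ z) = g z := by
  have hd : DifferentiableOn ℂ (fun z => deriv g z / g z) (ball c r) :=
    (hg.deriv isOpen_ball).div hg h0
  obtain ⟨Φ, hΦ⟩ := hd.isExactOn_ball
  have hcm : c ∈ ball c r := mem_ball_self hr
  have hℓ : ∀ z ∈ ball c r, HasDerivAt (fun z => Φ z - Φ c + l₀) (deriv g z / g z) z := by
    intro z hz
    exact ((hΦ z hz).sub_const _).add_const _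
  refine ⟨fun z => Φ z - Φ c + l₀, ?_, by simp, ?_⟩
  · intro z hz
    exact (hℓ z hz).differentiableAt.differentiableWithinAt
  · intro z hz
    have hgd : ∀ z ∈ ball c r, HasDerivAt g (deriv g z) z := by
      intro z hz
      exact (hg.differentiableAt (isOpen_ball.mem_nhds hz)).hasDerivAt
    have hh : ∀ z ∈ ball c r,
        HasDerivAt (fun z => g z * Complex.exp (-(Φ z - Φ c + l₀))) 0 z := by
      intro z hz
      have h1 := (hgd z hz).mul ((hℓ z hz).neg.cexp)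
      have h2 : deriv g z * Complex.exp (-(Φ z - Φ c + l₀))
          + g z * (Complex.exp (-(Φ z - Φ c + l₀)) * -(deriv g z / g z)) = 0 := by
        have := h0 z hz
        field_simp
        ring
      rw [← h2]
      exact h1
    have hconst := isOpen_ball.is_const_of_deriv_eq_zero (convex_ball c r).isPreconnected
      (fun z hz => (hh z hz).differentiableAt.differentiableWithinAt)
      (fun z hz => (hh z hz).deriv) hz hcm
    simp only [sub_self, zero_add] at hconst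
    rw [← hl₀, ← Complex.exp_add, add_neg_cancel, Complex.exp_zero] at hconst
    have h3 : Complex.exp (-(Φ z - Φ c + l₀)) ≠ 0 := Complex.exp_ne_zero _
    rw [Complex.exp_neg] at hconst
    have h4 : Complex.exp (Φ z - Φ c + l₀) ≠ 0 := Complex.exp_ne_zero _
    field_simp at hconst
    exact hconst.symm

theorem P_add_period {d : ℕ} {c : ℂ} {p : ℕ} (h : P d p c = 0) (k : ℕ) :
    P d (k + p) c = P d k c := by
  induction k with
  | zero => rw [zero_add, h, P_zero]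
  | succ k ih => rw [Nat.succ_add, P_succ, ih, P_succ]

theorem P_mul_period {d : ℕ} {c : ℂ} {p : ℕ} (h : P d p c = 0) (j : ℕ) : P d (j * p) c = 0 := by
  induction j with
  | zero => rw [Nat.zero_mul, P_zero]
  | succ j ih => rw [Nat.succ_mul, P_add_period h, ih]

theorem mem_of_P_eq_zero {d : ℕ} {c : ℂ} {p : ℕ} (hp : 0 < p) (h : P d p c = 0) :
    c ∈ N62a1eb23.multibrotSet d := by
  have hdef : c ∈ N62a1eb23.multibrotSet d ↔
    ¬ Tendsto (fun k => P d k c) atTop (Bornology.cobounded ℂ) := Iff.rfl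
  rw [hdef]
  intro ht
  have h1 : ∀ᶠ k in atTop, P d k c ≠ 0 := by
    have := tendsto_norm_cobounded_atTop.comp ht
    filter_upwards [this.eventually_gt_atTop 0] with k hk h0
    simp [h0] at hk
  obtain ⟨N, hN⟩ := eventually_atTop.1 h1
  exact hN (N * p) (Nat.le_mul_of_pos_right N hp) (P_mul_period h N)

theorem BB_ne_zero {d : ℕ} (hd : 2 ≤ d) {β : ℂ → ℂ} (hβ : IsBeta d β) (n : ℕ) {x : ℂ}
    (hx : x ∈ ball (0 : ℂ) 1) : BB d β n x ≠ 0 := by
  by_cases hx0 : x = 0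
  · subst hx0
    rw [BB_at_zero hd, hβ.zero, one_pow]
    exact one_ne_zero
  · rw [BB_eq hd β n x hx0]
    refine mul_ne_zero (pow_ne_zero _ hx0) fun h => ?_
    exact hβ.notMem x hx hx0 (mem_of_P_eq_zero (Nat.succ_pos n) h)

/-- the main estimate -/
theorem log_bound {L B : ℂ → ℂ} {K : ℕ} (hK : 1 ≤ K) (hL : DifferentiableOn ℂ L (ball 0 1))
    (hL0 : L 0 = 0) (hB : ∀ x ∈ ball (0 : ℂ) 1, Complex.exp (L x) = B x)
    (hB2 : ∀ x ∈ ball (0 : ℂ) 1, ‖B x‖ ≤ 2) {C : ℝ}
    (hC : ∀ x ∈ ball (0 : ℂ) (1 / 2), ‖B x - 1‖ ≤ C * ‖x‖ ^ K) {x : ℂ} (hx : x ∈ ball (0 : ℂ) 1) :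
    ‖L x‖ ≤ 2 * Real.log 2 * ‖x‖ ^ K / (1 - ‖x‖ ^ K) := by
  set M : ℝ := Real.log 2 with hM
  have hMpos : 0 < M := Real.log_pos one_lt_two
  have hre : ∀ y ∈ ball (0 : ℂ) 1, (L y).re ≤ M := by
    intro y hy
    have h1 := hB2 y hy
    rw [← hB y hy, Complex.norm_exp] at h1
    exact (Real.le_log_iff_exp_le two_pos).2 h1
  have hden : ∀ y ∈ ball (0 : ℂ) 1, 2 * (M : ℂ) - L y ≠ 0 := by
    intro y hy h0
    have h1 := congrArg Complex.re h0
    simp at h1
    have := hre y hy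
    linarith
  set F : ℂ → ℂ := fun y => L y / (2 * (M : ℂ) - L y) with hF
  have hFd : DifferentiableOn ℂ F (ball 0 1) :=
    hL.div ((differentiableOn_const _).sub hL) hden
  have hF0 : F 0 = 0 := by simp [hF, hL0]
  have hF1 : ∀ y ∈ ball (0 : ℂ) 1, ‖F y‖ ≤ 1 := by
    intro y hy
    rw [hF]
    simp only
    rw [norm_div, div_le_one (norm_pos_iff.2 (hden y hy))]
    rw [← sq_le_sq₀ (norm_nonneg _) (norm_nonneg _), ← Complex.normSq_eq_norm_sq,
      ← Complex.normSq_eq_norm_sq, Complex.normSq_apply, Complex.normSq_apply]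
    have h1 := hre y hy
    have h2 : (2 * (M : ℂ) - L y).re = 2 * M - (L y).re := by simp
    have h3 : (2 * (M : ℂ) - L y).im = -(L y).im := by simp
    rw [h2, h3]
    nlinarith [mul_nonneg hMpos.le (sub_nonneg.2 h1)]
  -- the order at the origin
  have hLc : ContinuousAt L 0 := (hL.differentiableAt (ball_mem_nhds 0 one_pos)).continuousAt
  have hLO : L =O[𝓝 0] (fun y : ℂ => ‖y‖ ^ K) := by
    apply IsBigO.of_bound (2 * C)
    have hsmall : ∀ᶠ y in 𝓝 (0 : ℂ), ‖L y‖ < 1 / 2 := by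
      have : Tendsto (fun y => ‖L y‖) (𝓝 0) (𝓝 0) := by
        have := hLc.norm
        rw [ContinuousAt, hL0, norm_zero] at this
        exact this
      exact this.eventually_lt_const (by norm_num)
    filter_upwards [hsmall, ball_mem_nhds (0 : ℂ) (show (0 : ℝ) < 1 / 2 by norm_num)] with y hy hy2
    have hy1 : y ∈ ball (0 : ℂ) 1 := ball_subset_ball (by norm_num) hy2
    have h1 : ‖Complex.exp (L y) - 1 - L y‖ ≤ ‖L y‖ ^ 2 :=
      Complex.norm_exp_sub_one_sub_id_le (by linarith)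
    have h2 : ‖L y‖ ≤ ‖Complex.exp (L y) - 1‖ + ‖Complex.exp (L y) - 1 - L y‖ := by
      calc ‖L y‖ = ‖(Complex.exp (L y) - 1) - (Complex.exp (L y) - 1 - L y)‖ := by
            congr 1; ring
        _ ≤ _ := norm_sub_le _ _
    have h3 := hC y hy2
    rw [hB y hy1] at h1 h2
    rw [Real.norm_of_nonneg (by positivity)]
    nlinarith [norm_nonneg (L y)]
  have hFo : (fun y => F y - F 0) =o[𝓝 0] (fun y : ℂ => ‖y - 0‖ ^ (K - 1)) := by
    have h1 : F =O[𝓝 0] (fun y : ℂ => ‖y‖ ^ K) := by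
      have h2 : (fun y => (2 * (M : ℂ) - L y)⁻¹) =O[𝓝 0] (fun _ => (1 : ℝ)) := by
        have h3 : ContinuousAt (fun y => (2 * (M : ℂ) - L y)⁻¹) 0 :=
          (continuousAt_const.sub hLc).inv₀ (hden 0 (mem_ball_self one_pos))
        exact h3.isBigO_one ℝ
      have h4 := hLO.mul h2
      simp only [mul_one] at h4
      exact h4
    have h5 : (fun y : ℂ => ‖y‖ ^ K) =o[𝓝 0] (fun y : ℂ => ‖y - 0‖ ^ (K - 1)) := by
      have h6 : (fun y : ℂ => ‖y‖ ^ K) = fun y : ℂ => ‖y‖ * ‖y - 0‖ ^ (K - 1) := by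
        funext y
        rw [sub_zero, ← pow_succ', Nat.sub_add_cancel hK]
      rw [h6]
      have h7 : (fun y : ℂ => ‖y‖) =o[𝓝 0] (fun _ : ℂ => (1 : ℝ)) := by
        rw [isLittleO_one_iff]
        have := (continuous_norm (E := ℂ)).tendsto 0
        rwa [norm_zero] at this
      have h8 := h7.mul_isBigO (isBigO_refl (fun y : ℂ => ‖y - 0‖ ^ (K - 1)) (𝓝 0))
      simpa using h8
    simp only [hF0, sub_zero]
    have := h1.trans_isLittleO h5
    simpa using this
  have hS := Complex.dist_le_mul_div_pow_of_mapsTo_ball_of_isLittleO (f := F) (c := 0) (z := x)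
    (R₁ := 1) (R₂ := 1) (n := K - 1) hFd (fun y hy => by
      rw [mem_closedBall, hF0, dist_zero_right]; exact hF1 y hy) hFo hx
  rw [hF0, dist_zero_right, dist_zero_right, div_one, one_mul, Nat.sub_add_cancel hK] at hS
  have hx1 : ‖x‖ < 1 := mem_ball_zero_iff.1 hx
  have hq : ‖x‖ ^ K < 1 := pow_lt_one₀ (norm_nonneg _) hx1 (by omega)
  have hLF : L x * (1 + F x) = 2 * M * F x := by
    have h1 := hden x hx
    simp only [hF]
    field_simp
    ring
  rw [le_div_iff₀ (by linarith)]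
  have h1 : 1 - ‖x‖ ^ K ≤ ‖1 + F x‖ := by
    have h2 : ‖(1 : ℂ)‖ ≤ ‖1 + F x‖ + ‖F x‖ := by
      calc ‖(1 : ℂ)‖ = ‖(1 + F x) - F x‖ := by congr 1; ring
        _ ≤ _ := norm_sub_le _ _
    rw [norm_one] at h2
    linarith
  calc ‖L x‖ * (1 - ‖x‖ ^ K) ≤ ‖L x‖ * ‖1 + F x‖ := by gcongr
    _ = ‖2 * (M : ℂ) * F x‖ := by rw [← norm_mul, hLF]
    _ = 2 * M * ‖F x‖ := by
        rw [norm_mul, norm_mul, Complex.norm_real, Real.norm_of_nonneg hMpos.le]
        norm_num
    _ ≤ 2 * M * ‖x‖ ^ K := by gcongr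

/-- a function with the bound has vanishing Taylor coefficients -/
theorem tc_eq_zero {L : ℂ → ℂ} {K k : ℕ} (hk : k < K) (hL : DifferentiableOn ℂ L (ball 0 1))
    (hb : ∀ x ∈ ball (0 : ℂ) 1, ‖L x‖ ≤ 2 * Real.log 2 * ‖x‖ ^ K / (1 - ‖x‖ ^ K)) :
    tc L k = 0 := by
  have hlog : 0 < Real.log 2 := Real.log_pos one_lt_two
  have key : ∀ r : ℝ, 0 < r → r ≤ 1 / 2 →
      ‖iteratedDeriv k L 0‖ ≤ k.factorial * (4 * Real.log 2) * r := by
    intro r hr hr2
    have h1 := Complex.norm_iteratedDeriv_le_of_forall_mem_sphere_norm_le (n := k) (c := (0 : ℂ))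
      (R := r) (C := 4 * Real.log 2 * r ^ K) (F := ℂ) (f := L) hr
      ((hL.mono (closedBall_subset_ball (by linarith))).diffContOnCl_ball subset_rfl) ?_
    · refine h1.trans ?_
      rw [div_le_iff₀ (by positivity)]
      have h2 : r ^ K ≤ r * r ^ k := by
        rw [← pow_succ']
        exact pow_le_pow_of_le_one hr.le (by linarith) hk
      calc (k.factorial : ℝ) * (4 * Real.log 2 * r ^ K)
          ≤ (k.factorial : ℝ) * (4 * Real.log 2 * (r * r ^ k)) := by gcongr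
        _ = _ := by ring
    · intro z hz
      have hzr : ‖z‖ = r := by simpa using hz
      have h2 := hb z (mem_ball_zero_iff.2 (by rw [hzr]; linarith))
      rw [hzr] at h2
      refine h2.trans ?_
      have h3 : r ^ K ≤ 1 / 2 := by
        calc r ^ K ≤ r ^ 1 := pow_le_pow_of_le_one hr.le (by linarith) (by omega)
          _ ≤ 1 / 2 := by rw [pow_one]; exact hr2
      rw [div_le_iff₀ (by linarith)]
      have h4 : 0 ≤ r ^ K := by positivity
      nlinarith [mul_nonneg hlog.le h4, mul_nonneg (mul_nonneg hlog.le h4) (by linarith : (0:ℝ) ≤ 1 / 2 - r ^ K)]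
  have h0 : ‖iteratedDeriv k L 0‖ ≤ 0 := by
    have ht : Tendsto (fun r : ℝ => k.factorial * (4 * Real.log 2) * r) (𝓝[>] 0) (𝓝 0) := by
      have : Tendsto (fun r : ℝ => k.factorial * (4 * Real.log 2) * r) (𝓝 0)
          (𝓝 (k.factorial * (4 * Real.log 2) * 0)) := tendsto_id.const_mul _
      rw [mul_zero] at this
      exact this.mono_left nhdsWithin_le_nhds
    refine ge_of_tendsto ht ?_
    filter_upwards [Ioc_mem_nhdsGT (show (0 : ℝ) < 1 / 2 by norm_num)] with r hr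
    exact key r hr.1 hr.2
  rw [tc, norm_le_zero_iff.1 h0, mul_zero]

/-- task LOG -/
theorem t : St_Log := by
  intro d β hd hβ
  have hK : ∀ n, 1 ≤ d ^ (n + 1) - 1 := fun n => by
    have : 1 < d ^ (n + 1) := Nat.one_lt_pow (by omega) (by omega)
    omega
  have hex : ∀ n, ∃ L : ℂ → ℂ, DifferentiableOn ℂ L (ball 0 1) ∧ L 0 = 0 ∧
      ∀ z ∈ ball (0 : ℂ) 1, Complex.exp (L z) = BB d β n z := fun n =>
    exists_log_ball one_pos (BB_diff hβ.diff n) (fun z hz => BB_ne_zero hd hβ n hz) 0 (by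
      rw [BB_at_zero hd, hβ.zero, one_pow, Complex.exp_zero])
  choose L h1 h2 h3 using hex
  have hb : ∀ n, ∀ x ∈ ball (0 : ℂ) 1, ‖L n x‖ ≤
      2 * Real.log 2 * ‖x‖ ^ (d ^ (n + 1) - 1) / (1 - ‖x‖ ^ (d ^ (n + 1) - 1)) := by
    intro n x hx
    obtain ⟨C, hC⟩ := hβ.order n
    exact log_bound (hK n) (h1 n) (h2 n) (h3 n) (fun y hy => AR.BB_le_two hd hβ n hy) hC hx
  exact ⟨L, h1, h2, h3, hb, fun n k hk => tc_eq_zero hk (h1 n) (hb n)⟩

end Pool.Agent.Y87.TY
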